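import Mathlib
import Pool.Agent.Q134.SPMain

set_option autoImplicit false

/-!
# Intermediate spectator numbers of edge-supergraphs

A supergraph attaining the spectator floor is constructed by following the minor operations with a
potential for a unique shortest path: the potential changes by at most `N` along each edge, and by
exactly `N` only along the path.  Squeezing an interval of length `N` of the values to a point
removes one vertex of the path.  Starting from that supergraph, doubling the first edge of a longest
unique shortest path increases the spectator number by at most one.
-/

namespace Pool.Agent.Results.MP_aba9fe_co.Intermediate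

open Pool.Agent.Q134.SP

/-- For every multigraph `G` and every number `i` with `sf(G) ≤ i ≤ sp(G)` there is a supergraph `F`
of `G` on the same vertex set with `sp(F) = i`. -/
theorem result (V : Type) [Finite V] [Nonempty V] (G : MGraph V) (i : ℕ) (h1 : sf G ≤ i)
    (h2 : i ≤ G.sp) : ∃ F : MGraph V, F.IsSuper G ∧ F.sp = i := by
  obtain ⟨F, hF, hF'⟩ := exists_floor G
  have h3 := usp_pos G
  have h4 := usp_le_card G
  obtain ⟨F', g1, g2⟩ := exists_between i (by unfold MGraph.sp at h2; omega) _ F rfl
    (hF'.trans h1)
  exact ⟨F', IsSuper.trans g1 hF, g2⟩

end Pool.Agent.Results.MP_aba9fe_co.Intermediate
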